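import Mathlib

/-!
# MP_425159_co: quasigroups with ((xy)x)y = x

The order of a finite quasigroup with `((xy)x)y = x` is congruent to `0` or `1` modulo `4`.
Let `α (a,b) = (ab, b)`, `γ (a,b) = (a, ab)` and `τ (a,b) = (b,a)`, permutations of `S × S`.  The identity
says `α τ γ α = γ`, hence the sign of `τ` is `1`; but `τ` is a product of `n (n-1) / 2` transpositions.
-/

namespace Pool.Agent.Results.MP_425159_co.ZeroOrOneModFour

open Equiv Equiv.Perm

/-- `m` is a quasigroup operation. -/
def IsQuasigroup {S : Type*} (m : S → S → S) : Prop :=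
  (∀ a b, ∃! x, m a x = b) ∧ (∀ a b, ∃! x, m x a = b)

/-- The identity `((xy)x)y = x`. -/
def IdE {S : Type*} (m : S → S → S) : Prop := ∀ x y, m (m (m x y) x) y = x

/-- The spectrum of (E): the orders of the finite quasigroups satisfying (E). -/
def spectrum : Set ℕ := {n | 0 < n ∧ ∃ m : Fin n → Fin n → Fin n, IsQuasigroup m ∧ IdE m}

set_option linter.unusedSectionVars false

section
variable {S : Type*} [Fintype S] [DecidableEq S] {m : S → S → S}

lemma left_inj (hq : IsQuasigroup m) {a x y : S} (h : m a x = m a y) : x = y := by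
  obtain ⟨z, _, hz⟩ := hq.1 a (m a x)
  rw [hz x rfl, hz y h.symm]

lemma right_inj (hq : IsQuasigroup m) {a x y : S} (h : m x a = m y a) : x = y := by
  obtain ⟨z, _, hz⟩ := hq.2 a (m x a)
  rw [hz x rfl, hz y h.symm]

/-- `((uy)y)(uy) = u`. -/
lemma key (hq : IsQuasigroup m) (hE : IdE m) (u y : S) : m (m (m u y) y) (m u y) = u :=
  right_inj hq (a := y) (hE (m u y) y)

lemma idem (hq : IsQuasigroup m) (hE : IdE m) (x : S) : m x x = x := by
  obtain ⟨u, hu, _⟩ := hq.2 x x
  have h : m u x = x := hu
  have h3 := key hq hE u x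
  rw [h] at h3
  have h4 := hE u x
  rw [h] at h4
  have h5 : m x x = m x u := right_inj hq (h3.trans h4.symm)
  have h6 := left_inj hq h5
  rw [← h6] at h
  exact h

/-- `(a, b) ↦ (a b, b)` -/
noncomputable def al (hq : IsQuasigroup m) : Perm (S × S) :=
  Equiv.ofBijective (fun p => (m p.1 p.2, p.2)) (by
    rw [Fintype.bijective_iff_injective_and_card]
    refine ⟨?_, rfl⟩
    rintro ⟨a, b⟩ ⟨c, d⟩ h
    simp only [Prod.mk.injEq] at h
    obtain ⟨h1, rfl⟩ := h
    rw [right_inj hq h1])

/-- `(a, b) ↦ (a, a b)` -/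
noncomputable def ga (hq : IsQuasigroup m) : Perm (S × S) :=
  Equiv.ofBijective (fun p => (p.1, m p.1 p.2)) (by
    rw [Fintype.bijective_iff_injective_and_card]
    refine ⟨?_, rfl⟩
    rintro ⟨a, b⟩ ⟨c, d⟩ h
    simp only [Prod.mk.injEq] at h
    obtain ⟨rfl, h1⟩ := h
    rw [left_inj hq h1])

/-- `(a, b) ↦ (b, a)` -/
def ta : Perm (S × S) := Equiv.prodComm S S

lemma rel (hq : IsQuasigroup m) (hE : IdE m) :
    al hq * ta * ga hq * al hq = ga hq := by
  ext1 ⟨u, y⟩
  simp only [Perm.mul_apply]
  show (m (m (m u y) y) (m u y), m u y) = (u, m u y)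
  rw [key hq hE]

lemma sign_of_sq {α : Type*} [Fintype α] [DecidableEq α] {σ : Perm α} (h : σ ^ 2 = 1) :
    ∃ k, σ.support.card = 2 * k ∧ sign σ = (-1) ^ k := by
  have hall : ∀ j ∈ σ.cycleType, j = 2 := fun j hj =>
    le_antisymm (Nat.le_of_dvd two_pos ((dvd_of_mem_cycleType hj).trans (orderOf_dvd_of_pow_eq_one h)))
      (two_le_of_mem_cycleType hj)
  have hrep : σ.cycleType = Multiset.replicate (Multiset.card σ.cycleType) 2 :=
    Multiset.eq_replicate_card.2 hall
  have hsum := sum_cycleType σ
  refine ⟨Multiset.card σ.cycleType, ?_, ?_⟩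
  · rw [← hsum]
    conv_lhs => rw [hrep]
    rw [Multiset.sum_replicate, smul_eq_mul, mul_comm]
  · rw [sign_of_cycleType]
    have : σ.cycleType.sum = 2 * Multiset.card σ.cycleType := by
      conv_lhs => rw [hrep]
      rw [Multiset.sum_replicate, smul_eq_mul, mul_comm]
    rw [this, pow_add, pow_mul]
    norm_num

lemma support_prodComm :
    support (ta : Perm (S × S)) = (Finset.univ : Finset S).offDiag := by
  ext ⟨a, b⟩
  simp only [mem_support, Finset.mem_offDiag, Finset.mem_univ, true_and]
  show ¬ ((b, a) : S × S) = (a, b) ↔ a ≠ b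
  rw [Prod.mk.injEq]
  constructor
  · rintro h rfl
    exact h ⟨rfl, rfl⟩
  · rintro h ⟨_, h2⟩
    exact h h2

lemma parity (hq : IsQuasigroup m) (hE : IdE m) :
    Fintype.card S % 4 = 0 ∨ Fintype.card S % 4 = 1 := by
  have h1 := congrArg sign (rel hq hE)
  simp only [Perm.sign_mul] at h1
  have hs : ∀ u : ℤˣ, u * u = 1 := fun u => Int.units_mul_self u
  have h2 : sign (ta : Perm (S × S)) = 1 := by
    have e : ∀ a b c : ℤˣ, a * b * c * a = (a * a) * (b * c) := by decide
    rw [e, hs, one_mul] at h1
    exact mul_eq_right.1 h1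
  have hsq : (ta : Perm (S × S)) ^ 2 = 1 := by
    ext1 ⟨a, b⟩
    rfl
  obtain ⟨k, hk1, hk2⟩ := sign_of_sq hsq
  rw [support_prodComm, Finset.offDiag_card, Finset.card_univ] at hk1
  rw [h2] at hk2
  have hk : Even k := by
    by_contra hodd
    rw [Nat.not_even_iff_odd] at hodd
    rw [hodd.neg_one_pow] at hk2
    exact absurd hk2 (by decide)
  obtain ⟨j, rfl⟩ := hk
  generalize Fintype.card S = n at *
  have hle : n ≤ n * n := Nat.le_mul_self n
  obtain ⟨q, r, hr, rfl⟩ : ∃ q r, r < 4 ∧ n = 4 * q + r := ⟨n / 4, n % 4, Nat.mod_lt _ (by norm_num), by omega⟩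
  have e : (4 * q + r) * (4 * q + r) = 4 * (4 * q * q + 2 * q * r) + r * r := by ring
  rw [e] at hk1 hle
  generalize 4 * q * q + 2 * q * r = w at *
  interval_cases r <;> omega

/-- `x ↦ x y` -/
noncomputable def rt (hq : IsQuasigroup m) (y : S) : Perm S :=
  Equiv.ofBijective (fun x => m x y) (by
    rw [Fintype.bijective_iff_injective_and_card]
    exact ⟨fun a b h => right_inj hq h, rfl⟩)

lemma rt_apply (hq : IsQuasigroup m) (x y : S) : rt hq y x = m x y := rfl

lemma no_fix (hq : IsQuasigroup m) (hE : IdE m) {x y : S} (h : m x y = x) : x = y :=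
  left_inj hq ((idem hq hE x).trans h.symm)

lemma no_two (hq : IsQuasigroup m) (hE : IdE m) {x y : S} (h : m (m x y) y = x) : x = y := by
  have h1 := key hq hE x y
  rw [h] at h1
  have h2 := no_fix hq hE h1
  exact no_fix hq hE h2.symm

lemma no_three (hq : IsQuasigroup m) (hE : IdE m) {x y : S} (h : m (m (m x y) y) y = x) :
    x = y := by
  have h1 := key hq hE x y
  have h2 : m x y = y := left_inj hq (h1.trans h.symm)
  exact right_inj hq (h2.trans (idem hq hE y).symm)

lemma four (hq : IsQuasigroup m) (hE : IdE m) {y : S}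
    (h4 : ∀ x, m (m (m (m x y) y) y) y = x) : Fintype.card S % 4 = 1 := by
  have hp : (rt hq y) ^ 4 = 1 := by
    ext x
    exact h4 x
  have hsup : (rt hq y).support = Finset.univ.erase y := by
    ext x
    rw [mem_support, Finset.mem_erase, rt_apply]
    constructor
    · intro h
      refine ⟨?_, Finset.mem_univ _⟩
      rintro rfl
      exact h (idem hq hE x)
    · rintro ⟨h, _⟩ h'
      exact h (no_fix hq hE h')
  have hall : ∀ j ∈ (rt hq y).cycleType, j = 4 := by
    intro j hj
    have h1 : j ∣ 4 := (dvd_of_mem_cycleType hj).trans (orderOf_dvd_of_pow_eq_one hp)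
    have h2 := two_le_of_mem_cycleType hj
    have h3 : j ≤ 4 := Nat.le_of_dvd (by norm_num) h1
    interval_cases j
    · exfalso
      rw [mem_cycleType_iff] at hj
      obtain ⟨c, τ, hc, hd, hcyc, hcard⟩ := hj
      obtain ⟨x, hx⟩ : ∃ x, x ∈ c.support := Finset.card_pos.1 (by omega)
      have hc2 : (c ^ 2) x = x := by
        have : orderOf c = 2 := by rw [hcyc.orderOf, hcard]
        rw [← this, pow_orderOf_eq_one]
        rfl
      have hx1 : rt hq y x = c x := by
        rw [hc, mul_apply]
        have : τ x = x := by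
          rcases hd x with h | h
          · exact absurd h (mem_support.1 hx)
          · exact h
        rw [this]
      have hcx : c x ∈ c.support := by rwa [apply_mem_support]
      have hx2 : rt hq y (c x) = c (c x) := by
        rw [hc, mul_apply]
        have : τ (c x) = c x := by
          rcases hd (c x) with h | h
          · exact absurd h (mem_support.1 hcx)
          · exact h
        rw [this]
      have hx3 : m (m x y) y = x := by
        have : rt hq y (rt hq y x) = x := by
          rw [hx1, hx2]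
          exact hc2
        exact this
      have hxy := no_two hq hE hx3
      have : rt hq y x = x := by
        rw [hxy]
        exact idem hq hE y
      exact (mem_support.1 hx) (hx1.symm.trans this)
    · exact absurd h1 (by decide)
    · rfl
  have hrep : (rt hq y).cycleType = Multiset.replicate (Multiset.card (rt hq y).cycleType) 4 :=
    Multiset.eq_replicate_card.2 hall
  have hsum := sum_cycleType (rt hq y)
  rw [hrep, Multiset.sum_replicate, smul_eq_mul, hsup, Finset.card_erase_of_mem (Finset.mem_univ _),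
    Finset.card_univ] at hsum
  have : 0 < Fintype.card S := Fintype.card_pos_iff.2 ⟨y⟩
  omega

end

/-- Every order in the spectrum of `((xy)x)y = x` is `0` or `1` modulo `4`.  For `x ≠ y` the elements
`x, xy, (xy)y, ((xy)y)y` are pairwise different; if for one `y` the fourth power of `x ↦ xy` is the
identity, then the order is `1` modulo `4`. -/
theorem result :
    (∀ n ∈ spectrum, n % 4 = 0 ∨ n % 4 = 1) ∧
    (∀ (n : ℕ) (m : Fin n → Fin n → Fin n), IsQuasigroup m → IdE m →
      (∀ x y, x ≠ y → m x y ≠ x ∧ m (m x y) y ≠ x ∧ m (m (m x y) y) y ≠ x) ∧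
      (∀ y, (∀ x, m (m (m (m x y) y) y) y = x) → n % 4 = 1)) := by
  refine ⟨?_, ?_⟩
  · rintro n ⟨_, m, hq, hE⟩
    have := parity hq hE
    rwa [Fintype.card_fin] at this
  · intro n m hq hE
    refine ⟨fun x y hxy => ⟨fun h => hxy (no_fix hq hE h), fun h => hxy (no_two hq hE h),
      fun h => hxy (no_three hq hE h)⟩, fun y h => ?_⟩
    have := four hq hE h
    rwa [Fintype.card_fin] at this

end Pool.Agent.Results.MP_425159_co.ZeroOrOneModFour
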